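import Pool.Agent.H.MP_529160_co.Base3
import Pool.Agent.H.MP_529160_co.Fail

/-!
# The product-extremal multigraph conjecture does not reduce to its base cases

For `r = 3`, `d = 1` the asymptotic identity `A(3,1,a,s)` holds in the base case `s = 6` for all
`a ≥ 2`, but it fails for `a = 2` and every `s ≥ 169`: the multigraph on `{0, ..., n-1}` in which
`{u, v}` has multiplicity `3 - [u ≡ v mod 3] - [u ≡ v mod 14]` is an `(s, Σ_{3,1}(2,s))`-graph and
its product is exponentially (in `n^2`) larger than `Π_{3,1}(2,n)`.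
-/

namespace Pool.Agent.Results.MP_529160_co.BaseCasesDoNotSuffice

open Pool.Agent.H.MP_529160_co

theorem result :
    (∃ r d : ℕ, 1 ≤ r ∧ (∀ a, d + 1 ≤ a → Asym r d a ((r - 1) * (d + 1) + 2)) ∧
      ∃ s a : ℕ, (r - 1) * (d + 1) + 2 < s ∧ d + 1 ≤ a ∧ ¬ Asym r d a s) ∧
    (∀ a : ℕ, 2 ≤ a → Asym 3 1 a 6) ∧
    (∀ s : ℕ, 169 ≤ s → ¬ Asym 3 1 2 s) :=
  ⟨⟨3, 1, by norm_num, fun _ ha => base3 ha, 169, 2, by norm_num, by norm_num, fails le_rfl⟩,
    fun _ ha => base3 ha, fun _ hs => fails hs⟩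

end Pool.Agent.Results.MP_529160_co.BaseCasesDoNotSuffice
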